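import Pool.Agent.FinslerRigid.Main

set_option autoImplicit false

open Set
open FinslerRigid

namespace Pool.Agent.Results.MP_2c180d_gt.FinslerVolumeRigidity

universe u v

/-- Every convex body `Y` in every finite-dimensional normed space `E` is Lipschitz-volume rigid
among integral current spaces, for the Busemann mass and for the Holmes-Thompson mass. -/
theorem result {k : ℕ} {E : Type v} [NormedAddCommGroup E] [NormedSpace ℝ E]
    (e : E ≃L[ℝ] Rk (k + 1)) (Y : Set E) (hY : IsCompact Y) (hconv : Convex ℝ Y)
    (hint : (interior Y).Nonempty) :
    LipschitzVolumeRigid.{u} busemann e Y ∧ LipschitzVolumeRigid.{u} holmesThompson e Y :=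
  ⟨lipschitzVolumeRigid isGoodVolume_busemann dominated_busemann e hY hconv hint,
    lipschitzVolumeRigid isGoodVolume_holmesThompson dominated_holmesThompson e hY hconv hint⟩

end Pool.Agent.Results.MP_2c180d_gt.FinslerVolumeRigidity
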